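import Pool.Agent.Q196.CF.Ball
import Pool.Agent.Q196.CF.Metric

/-! # MP_f97503_an: compensation functions on the unit ball versus the whole dual

Q1 (answer: YES).  `M(K)` is the dual `WeakDual ℝ C(K, ℝ)` of `C(K)` with its weak* topology
(Riesz representation), `μ(K) = μ 1`, and for `f ≥ 0` the value of the positive part is
`μ⁺(f) = sup {μ(g) : g ∈ C(K), 0 ≤ g ≤ f}`.  For every compact Hausdorff space `K` the
following are equivalent: `K` is metrizable; `K` admits a compensation function; `K` admits a
compensation function on the closed unit ball of `M(K)`.  In particular a compact space with a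
`B_{M(K)}`-compensation function admits a compensation function.  -/

namespace Pool.Agent.Results.MP_f97503_an.BallCompensationIffMetrizable

open Pool.Agent.Q196.CF

theorem result (K : Type*) [TopologicalSpace K] [CompactSpace K] [T2Space K] :
    List.TFAE [
      TopologicalSpace.MetrizableSpace K,
      ∃ ξ : WeakDual ℝ C(K, ℝ) → WeakDual ℝ C(K, ℝ), IsCompensationFunction Set.univ ξ,
      ∃ ξ : WeakDual ℝ C(K, ℝ) → WeakDual ℝ C(K, ℝ),
        IsCompensationFunction (dualBall K) ξ] := by
  tfae_have 1 → 2 := fun _ => exists_compensation K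
  tfae_have 2 → 3 := fun ⟨ξ, h⟩ =>
    ⟨ξ, h.1.mono (Set.subset_univ _), fun μ _ => h.2 μ (Set.mem_univ μ)⟩
  tfae_have 3 → 1 := fun ⟨ξ, h⟩ => metrizable_of_ball ξ h
  tfae_finish

end Pool.Agent.Results.MP_f97503_an.BallCompensationIffMetrizable
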